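import Mathlib
open Filter Topology UniformSpace
open scoped InnerProductSpace ComplexConjugate

namespace Pool.Agent.Results.MP_6f1842_lc.BorelKazhdan

universe u

/-!
# The families of Kazhdan and of generating non-Kazhdan subsets of `ℤ` are Borel
-/

/-- `Q ⊆ ℤ` is a Kazhdan set: there is `ε > 0` such that every unitary operator `U` on a complex
Hilbert space with a unit vector `x` satisfying `sup_{n ∈ Q} ‖U ^ n x - x‖ < ε` has a nonzero fixed
vector. The Hilbert spaces range over an arbitrary universe `u`. -/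
def IsKazhdan (Q : Set ℤ) : Prop :=
  ∃ ε : ℝ, 0 < ε ∧ ∀ (H : Type u) [NormedAddCommGroup H] [InnerProductSpace ℂ H] [CompleteSpace H]
    (U : H ≃ₗᵢ[ℂ] H),
    (∃ x : H, ‖x‖ = 1 ∧ ∃ δ < ε, ∀ n ∈ Q, ‖(U ^ n) x - x‖ ≤ δ) → ∃ y : H, y ≠ 0 ∧ U y = y

/-- Normalised positive definite functions on `ℤ`. -/
def PD : Set (ℤ → ℂ) := {φ | φ 0 = 1 ∧ (∀ n, ‖φ n‖ ≤ 1) ∧ (∀ n, φ (-n) = conj (φ n)) ∧
  ∀ (s : Finset ℤ) (c : ℤ → ℂ), 0 ≤ (∑ a ∈ s, ∑ b ∈ s, conj (c a) * c b * φ (b - a)).re}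

section forward

variable {H : Type u} [NormedAddCommGroup H] [InnerProductSpace ℂ H] (U : H ≃ₗᵢ[ℂ] H) (x : H)

lemma inner_zpow (a b : ℤ) : ⟪(U ^ a) x, (U ^ b) x⟫_ℂ = ⟪x, (U ^ (b - a)) x⟫_ℂ := by
  have : (U ^ b) x = (U ^ a) ((U ^ (b - a)) x) := by
    show (U ^ b) x = (U ^ a * U ^ (b - a)) x
    rw [← zpow_add]; simp
  rw [this, LinearIsometryEquiv.inner_map_map]

lemma norm_sum_sq {ι : Type*} (s : Finset ι) (m : ι → ℤ) (c : ι → ℂ) :
    ‖∑ a ∈ s, c a • (U ^ m a) x‖ ^ 2 =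
      (∑ a ∈ s, ∑ b ∈ s, conj (c a) * c b * ⟪x, (U ^ (m b - m a)) x⟫_ℂ).re := by
  rw [← inner_self_eq_norm_sq (𝕜 := ℂ), sum_inner, RCLike.re_eq_complex_re]
  congr 1
  refine Finset.sum_congr rfl fun a _ => ?_
  rw [inner_sum]
  refine Finset.sum_congr rfl fun b _ => ?_
  rw [inner_smul_left, inner_smul_right, inner_zpow]
  ring

lemma norm_avg_sq (N : ℕ) :
    ‖∑ a ∈ Finset.range N, (U ^ (a : ℤ)) x‖ ^ 2 =
      (∑ a ∈ Finset.range N, ∑ b ∈ Finset.range N, ⟪x, (U ^ ((b : ℤ) - a)) x⟫_ℂ).re := by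
  have := norm_sum_sq U x (Finset.range N) (fun a => (a : ℤ)) (fun _ => 1)
  simpa using this

lemma mem_PD (hx : ‖x‖ = 1) : (fun n : ℤ => ⟪x, (U ^ n) x⟫_ℂ) ∈ PD := by
  refine ⟨?_, fun n => ?_, fun n => ?_, fun s c => ?_⟩
  · simp [hx]
  · refine (norm_inner_le_norm _ _).trans ?_
    rw [LinearIsometryEquiv.norm_map, hx, one_mul]
  · rw [inner_conj_symm]
    have := inner_zpow U x n 0
    simp only [zero_sub, zpow_zero] at this
    exact this.symm
  · have := norm_sum_sq U x s (fun a => a) c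
    rw [← this]
    positivity

lemma norm_sub_sq' (hx : ‖x‖ = 1) (n : ℤ) :
    ‖(U ^ n) x - x‖ ^ 2 = 2 - 2 * (⟪x, (U ^ n) x⟫_ℂ).re := by
  rw [@norm_sub_sq ℂ, LinearIsometryEquiv.norm_map, hx, ← inner_conj_symm]
  simp only [RCLike.re_eq_complex_re, Complex.conj_re]
  ring

end forward

section gns

variable {φ : ℤ → ℂ}

/-- The pre-Hilbert space. -/
def V (φ : ℤ → ℂ) : Type u := (fun _ => ULift.{u} ℤ →₀ ℂ) φ

noncomputable instance (φ : ℤ → ℂ) : AddCommGroup (V.{u} φ) :=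
  inferInstanceAs (AddCommGroup (ULift.{u} ℤ →₀ ℂ))
noncomputable instance (φ : ℤ → ℂ) : Module ℂ (V.{u} φ) :=
  inferInstanceAs (Module ℂ (ULift.{u} ℤ →₀ ℂ))

/-- The form. -/
noncomputable def form (φ : ℤ → ℂ) (v w : ULift.{u} ℤ →₀ ℂ) : ℂ :=
  v.sum fun a z => w.sum fun b y => conj z * y * φ (b.down - a.down)

lemma form_comm (h : φ ∈ PD) (v w : ULift.{u} ℤ →₀ ℂ) : conj (form φ w v) = form φ v w := by
  unfold form
  rw [Finsupp.sum_comm]
  simp only [Finsupp.sum, map_sum, map_mul, Complex.conj_conj]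
  refine Finset.sum_congr rfl fun a _ => Finset.sum_congr rfl fun b _ => ?_
  rw [← h.2.2.1, neg_sub]
  ring

lemma form_nonneg (h : φ ∈ PD) (v : ULift.{u} ℤ →₀ ℂ) : 0 ≤ (form φ v v).re := by
  have h1 := h.2.2.2 (v.support.map Equiv.ulift.toEmbedding) (fun n => v ⟨n⟩)
  simp only [Finset.sum_map, Equiv.coe_toEmbedding, Equiv.ulift_apply] at h1
  exact h1

lemma form_add (v w y : ULift.{u} ℤ →₀ ℂ) : form φ (v + w) y = form φ v y + form φ w y := by
  unfold form
  rw [Finsupp.sum_add_index']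
  · simp
  · intro a z1 z2
    simp only [Finsupp.sum, ← Finset.sum_add_distrib, map_add]
    refine Finset.sum_congr rfl fun b _ => ?_
    ring

lemma form_smul (v w : ULift.{u} ℤ →₀ ℂ) (r : ℂ) : form φ (r • v) w = conj r * form φ v w := by
  unfold form
  rw [Finsupp.sum_smul_index]
  · simp only [Finsupp.sum, Finset.mul_sum, map_mul]
    refine Finset.sum_congr rfl fun a _ => Finset.sum_congr rfl fun b _ => ?_
    ring
  · simp

lemma form_mapDomain (k : ℤ) (v w : ULift.{u} ℤ →₀ ℂ) :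
    form φ (Finsupp.mapDomain (fun a : ULift.{u} ℤ => ⟨a.down + k⟩) v)
      (Finsupp.mapDomain (fun a : ULift.{u} ℤ => ⟨a.down + k⟩) w) = form φ v w := by
  unfold form
  rw [Finsupp.sum_mapDomain_index]
  · congr 1
    funext a z
    rw [Finsupp.sum_mapDomain_index]
    · congr 1
      funext b y
      simp
    · simp
    · intro b y1 y2
      ring
  · simp
  · intro a z1 z2
    simp only [Finsupp.sum, ← Finset.sum_add_distrib, map_add]
    refine Finset.sum_congr rfl fun b _ => ?_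
    ring

lemma mapDomain_shift (k : ℤ) (v : ULift.{u} ℤ →₀ ℂ) :
    Finsupp.mapDomain (fun a : ULift.{u} ℤ => (⟨a.down + k⟩ : ULift.{u} ℤ))
      (Finsupp.mapDomain (fun a : ULift.{u} ℤ => ⟨a.down + -k⟩) v) = v := by
  rw [← Finsupp.mapDomain_comp]
  convert Finsupp.mapDomain_id using 2
  funext a
  simp [Function.comp]

/-- The pre-inner product. -/
@[instance_reducible]
noncomputable def preCore (φ : ℤ → ℂ) (h : φ ∈ PD) : PreInnerProductSpace.Core ℂ (V.{u} φ) where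
  inner v w := form φ v w
  conj_inner_symm v w := form_comm h v w
  re_inner_nonneg v := form_nonneg h v
  add_left v w y := form_add v w y
  smul_left v w r := form_smul v w r

variable [h : Fact (φ ∈ PD)]

noncomputable instance : SeminormedAddCommGroup (V.{u} φ) :=
  @InnerProductSpace.Core.toSeminormedAddCommGroup ℂ (V φ) _ _ _ (preCore φ h.out)

noncomputable instance : InnerProductSpace ℂ (V.{u} φ) :=
  InnerProductSpace.ofCore (preCore φ h.out)

/-- basis vectors -/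
noncomputable def e (φ : ℤ → ℂ) (n : ℤ) : V.{u} φ := (Finsupp.single ⟨n⟩ (1 : ℂ) : ULift.{u} ℤ →₀ ℂ)

lemma inner_e (a b : ℤ) : ⟪e.{u} φ a, e φ b⟫_ℂ = φ (b - a) := by
  change form φ (Finsupp.single ⟨a⟩ 1) (Finsupp.single ⟨b⟩ 1) = _
  simp [form]

/-- shift by `k` -/
noncomputable def sh (φ : ℤ → ℂ) (k : ℤ) : V.{u} φ →ₗ[ℂ] V.{u} φ :=
  (Finsupp.lmapDomain ℂ ℂ (fun a : ULift.{u} ℤ => ⟨a.down + k⟩) :
    (ULift.{u} ℤ →₀ ℂ) →ₗ[ℂ] (ULift.{u} ℤ →₀ ℂ))

omit h in
lemma sh_e (k n : ℤ) : sh.{u} φ k (e φ n) = e φ (n + k) := by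
  change Finsupp.mapDomain _ (Finsupp.single _ 1) = Finsupp.single _ 1
  simp

omit h in
lemma sh_sh (k : ℤ) (v : V.{u} φ) : sh φ k (sh φ (-k) v) = v :=
  mapDomain_shift k v

lemma norm_sh (k : ℤ) (v : V.{u} φ) : ‖sh φ k v‖ = ‖v‖ := by
  have h1 : ⟪sh φ k v, sh φ k v⟫_ℂ = ⟪v, v⟫_ℂ := form_mapDomain k v v
  rw [← sq_eq_sq₀ (norm_nonneg _) (norm_nonneg _), ← inner_self_eq_norm_sq (𝕜 := ℂ), h1,
    inner_self_eq_norm_sq]

/-- shift on the pre-Hilbert space as a continuous linear map -/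
noncomputable def shL (φ : ℤ → ℂ) [h : Fact (φ ∈ PD)] (k : ℤ) : V.{u} φ →L[ℂ] V.{u} φ :=
  (⟨sh φ k, norm_sh k⟩ : V.{u} φ →ₗᵢ[ℂ] V.{u} φ).toContinuousLinearMap

/-- shift on the completion -/
noncomputable def shC (φ : ℤ → ℂ) [h : Fact (φ ∈ PD)] (k : ℤ) :
    Completion (V.{u} φ) →L[ℂ] Completion (V.{u} φ) :=
  (shL φ k).completion

lemma shC_coe (k : ℤ) (v : V.{u} φ) : shC φ k (v : Completion (V.{u} φ)) = (sh φ k v : V φ) :=
  ContinuousLinearMap.completion_apply_coe _ _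

lemma shC_shC (k : ℤ) (v : Completion (V.{u} φ)) : shC φ k (shC φ (-k) v) = v := by
  induction v using Completion.induction_on with
  | hp => exact isClosed_eq (by fun_prop) continuous_id
  | ih v => rw [shC_coe, shC_coe, sh_sh]

lemma norm_shC (k : ℤ) (v : Completion (V.{u} φ)) : ‖shC φ k v‖ = ‖v‖ := by
  induction v using Completion.induction_on with
  | hp => exact isClosed_eq (by fun_prop) continuous_norm
  | ih v => rw [shC_coe, Completion.norm_coe, Completion.norm_coe, norm_sh]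

/-- the unitary operator -/
noncomputable def UU (φ : ℤ → ℂ) [h : Fact (φ ∈ PD)] :
    Completion (V.{u} φ) ≃ₗᵢ[ℂ] Completion (V.{u} φ) where
  toFun := shC φ 1
  map_add' := map_add _
  map_smul' := map_smul _
  invFun := shC φ (-1)
  left_inv v := by
    have := shC_shC (-1) v
    rwa [neg_neg] at this
  right_inv v := shC_shC 1 v
  norm_map' v := norm_shC 1 v

lemma UU_e (n : ℤ) : UU φ (e.{u} φ n : Completion (V.{u} φ)) = (e φ (n + 1) : V.{u} φ) := by
  change shC φ 1 _ = _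
  rw [shC_coe, sh_e]

lemma UU_zpow_e (n : ℤ) : (UU φ ^ n) (e.{u} φ 0 : Completion (V.{u} φ)) = (e φ n : V.{u} φ) := by
  induction n using Int.induction_on with
  | zero => simp
  | succ i ih =>
    rw [add_comm, zpow_add, zpow_one]
    show UU φ ((UU φ ^ (i : ℤ)) _) = _
    rw [ih, UU_e, add_comm]
  | pred i ih =>
    have h1 := UU_e (φ := φ) (-(i : ℤ) - 1)
    rw [sub_add_cancel] at h1
    apply (UU φ).injective
    rw [h1, ← ih]
    show (UU φ * UU φ ^ (-(i : ℤ) - 1)) _ = _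
    rw [← zpow_one_add]
    congr 2
    ring

lemma gns (φ : ℤ → ℂ) (h : φ ∈ PD) : ∃ (H : Type u) (_ : NormedAddCommGroup H)
    (_ : InnerProductSpace ℂ H) (_ : CompleteSpace H) (U : H ≃ₗᵢ[ℂ] H) (x : H),
    ‖x‖ = 1 ∧ ∀ n : ℤ, ⟪x, (U ^ n) x⟫_ℂ = φ n := by
  have : Fact (φ ∈ PD) := ⟨h⟩
  have key : ∀ n : ℤ, ⟪(e.{u} φ 0 : Completion (V.{u} φ)), (UU φ ^ n) (e.{u} φ 0 : Completion (V.{u} φ))⟫_ℂ
      = φ n := by
    intro n
    rw [UU_zpow_e, Completion.inner_coe, inner_e, sub_zero]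
  refine ⟨Completion (V.{u} φ), inferInstance, inferInstance, inferInstance, UU φ,
    (e.{u} φ 0 : Completion (V.{u} φ)), ?_, key⟩
  have h1 := key 0
  simp only [zpow_zero, LinearIsometryEquiv.coe_one, id_eq] at h1
  rw [h.1] at h1
  have h2 := inner_self_eq_norm_sq (𝕜 := ℂ) (e.{u} φ 0 : Completion (V.{u} φ))
  rw [h1] at h2
  simp only [RCLike.re_eq_complex_re, Complex.one_re] at h2
  nlinarith [norm_nonneg (e.{u} φ 0 : Completion (V.{u} φ))]

end gns

section closed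

/-- The subset of `ℤ` with indicator function `f`. -/
def code (f : ℤ → Bool) : Set ℤ := {n | f n = true}

/-- The auxiliary closed sets. -/
def FF (k N : ℕ) : Set (ℤ → Bool) := {f | ∃ φ ∈ PD,
  (∑ a ∈ Finset.range (N + 1), ∑ b ∈ Finset.range (N + 1), φ ((b : ℤ) - a)).re ≤
    ((N : ℝ) + 1) ^ 2 / 2 ∧ ∀ n, f n = true → 2 - 2 * (φ n).re ≤ (1 / ((k : ℝ) + 1)) ^ 2}

lemma isClosed_PD : IsClosed PD := by
  have e : PD = {φ : ℤ → ℂ | φ 0 = 1} ∩ ((⋂ n : ℤ, {φ : ℤ → ℂ | ‖φ n‖ ≤ 1}) ∩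
      ((⋂ n : ℤ, {φ : ℤ → ℂ | φ (-n) = conj (φ n)}) ∩ ⋂ s : Finset ℤ, ⋂ c : ℤ → ℂ,
        {φ : ℤ → ℂ | 0 ≤ (∑ a ∈ s, ∑ b ∈ s, conj (c a) * c b * φ (b - a)).re})) := by
    ext φ
    simp only [PD, Set.mem_inter_iff, Set.mem_iInter, Set.mem_ofPred_eq]
  rw [e]
  refine (isClosed_eq (continuous_apply 0) continuous_const).inter
    ((isClosed_iInter fun n => isClosed_le (continuous_apply n).norm continuous_const).inter
    ((isClosed_iInter fun n => isClosed_eq (continuous_apply _)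
      (Complex.continuous_conj.comp (continuous_apply n))).inter
    (isClosed_iInter fun s => isClosed_iInter fun c => isClosed_le continuous_const ?_)))
  refine Complex.continuous_re.comp (continuous_finsetSum _ fun a _ =>
    continuous_finsetSum _ fun b _ => continuous_const.mul (continuous_apply _))

lemma isCompact_PD : IsCompact PD := by
  have h : PD ⊆ Set.pi Set.univ fun _ : ℤ => Metric.closedBall (0 : ℂ) 1 := by
    intro φ hφ n _
    simpa using hφ.2.1 n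
  exact (isCompact_univ_pi fun _ => isCompact_closedBall 0 1).of_isClosed_subset isClosed_PD h

lemma isClosed_FF (k N : ℕ) : IsClosed (FF k N) := by
  have hK : IsCompact {p : (ℤ → Bool) × (ℤ → ℂ) | p.2 ∈ PD ∧
      (∑ a ∈ Finset.range (N + 1), ∑ b ∈ Finset.range (N + 1), p.2 ((b : ℤ) - a)).re ≤
        ((N : ℝ) + 1) ^ 2 / 2 ∧
      ∀ n, p.1 n = true → 2 - 2 * (p.2 n).re ≤ (1 / ((k : ℝ) + 1)) ^ 2} := by
    have hc : IsCompact ((Set.univ : Set (ℤ → Bool)) ×ˢ PD) := isCompact_univ.prod isCompact_PD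
    refine hc.of_isClosed_subset ?_ (fun p hp => ⟨trivial, hp.1⟩)
    have c2 : ∀ n : ℤ, Continuous fun p : (ℤ → Bool) × (ℤ → ℂ) => p.2 n := fun n =>
      (continuous_apply n).comp continuous_snd
    have c1 : ∀ n : ℤ, Continuous fun p : (ℤ → Bool) × (ℤ → ℂ) => p.1 n := fun n =>
      (continuous_apply n).comp continuous_fst
    have h3 : IsClosed (⋂ n : ℤ, {p : (ℤ → Bool) × (ℤ → ℂ) |
        p.1 n = true → 2 - 2 * (p.2 n).re ≤ (1 / ((k : ℝ) + 1)) ^ 2}) := by
      refine isClosed_iInter fun n => isClosed_imp ((isOpen_discrete {true}).preimage (c1 n)) ?_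
      exact isClosed_le (continuous_const.sub
        (continuous_const.mul (Complex.continuous_re.comp (c2 n)))) continuous_const
    have h2 : IsClosed {p : (ℤ → Bool) × (ℤ → ℂ) |
        (∑ a ∈ Finset.range (N + 1), ∑ b ∈ Finset.range (N + 1), p.2 ((b : ℤ) - a)).re ≤
        ((N : ℝ) + 1) ^ 2 / 2} :=
      isClosed_le (Complex.continuous_re.comp (continuous_finsetSum _ fun a _ =>
        continuous_finsetSum _ fun b _ => c2 _)) continuous_const
    convert (isClosed_PD.preimage continuous_snd).inter (h2.inter h3) using 1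
    ext p
    simp
  have h2 := (hK.image continuous_fst).isClosed
  convert h2 using 1
  ext f
  constructor
  · rintro ⟨φ, h⟩
    exact ⟨(f, φ), h, rfl⟩
  · rintro ⟨p, h, rfl⟩
    exact ⟨p.2, h⟩

end closed

section ergodic

variable {H : Type u} [NormedAddCommGroup H] [InnerProductSpace ℂ H] [CompleteSpace H]
  (U : H ≃ₗᵢ[ℂ] H)

omit [CompleteSpace H] in
lemma iterate_eq (N : ℕ) (x : H) : (⇑U)^[N] x = (U ^ (N : ℤ)) x := by
  induction N with
  | zero => simp
  | succ n ih =>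
    rw [Function.iterate_succ_apply', ih, Nat.cast_succ, add_comm, zpow_add, zpow_one]
    rfl

lemma exists_avg (hU : ∀ y, U y = y → y = 0) (x : H) :
    ∃ N : ℕ, ‖∑ a ∈ Finset.range (N + 1), (U ^ (a : ℤ)) x‖ ^ 2 ≤ ((N : ℝ) + 1) ^ 2 / 2 := by
  let T : H →L[ℂ] H := U.toLinearIsometry.toContinuousLinearMap
  have hT : ‖T‖ ≤ 1 := U.toLinearIsometry.norm_toContinuousLinearMap_le
  have h1 := T.tendsto_birkhoffAverage_orthogonalProjection hT x
  have h0 : ((T.eqLocus (1 : H →L[ℂ] H)).orthogonalProjectionOnto x : H) = 0 :=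
    hU _ (((T.eqLocus (1 : H →L[ℂ] H)).orthogonalProjectionOnto x).2)
  rw [h0] at h1
  have h2 := ((h1.comp (tendsto_add_atTop_nat 1)).norm)
  rw [norm_zero] at h2
  obtain ⟨N, hN⟩ := (h2.eventually_lt_const (show (0 : ℝ) < 1 / 2 by norm_num)).exists
  refine ⟨N, ?_⟩
  have e : birkhoffAverage ℂ T _root_.id (N + 1) x =
      ((N + 1 : ℕ) : ℂ)⁻¹ • ∑ a ∈ Finset.range (N + 1), (U ^ (a : ℤ)) x := by
    unfold birkhoffAverage birkhoffSum
    congr 1
    refine Finset.sum_congr rfl fun a _ => ?_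
    exact iterate_eq U a x
  simp only [Function.comp] at hN
  rw [e, norm_smul, norm_inv, Complex.norm_natCast, inv_mul_lt_iff₀ (by positivity)] at hN
  push_cast at hN
  nlinarith [norm_nonneg (∑ a ∈ Finset.range (N + 1), (U ^ (a : ℤ)) x)]

/-- The fixed vectors. -/
def Fix : Submodule ℂ H := LinearMap.eqLocus (U : H →ₗ[ℂ] H) LinearMap.id

omit [CompleteSpace H] in
lemma mem_Fix (y : H) : y ∈ Fix U ↔ U y = y := Iff.rfl

omit [CompleteSpace H] in
lemma zpow_fix {y : H} (hy : U y = y) (n : ℤ) : (U ^ n) y = y := by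
  induction n using Int.induction_on with
  | zero => simp
  | succ i ih =>
    rw [add_comm, zpow_add, zpow_one]
    show U ((U ^ (i : ℤ)) y) = y
    rw [ih, hy]
  | pred i ih =>
    apply U.injective
    show (U * U ^ (-(i : ℤ) - 1)) y = U y
    rw [← zpow_one_add, hy]
    convert ih using 3
    ring

omit [CompleteSpace H] in
lemma map_orth {v : H} (hv : v ∈ (Fix U)ᗮ) : U v ∈ (Fix U)ᗮ := by
  rw [Submodule.mem_orthogonal] at hv ⊢
  intro w hw
  have hw' : U w = w := hw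
  have h1 : ⟪w, U v⟫_ℂ = ⟪U w, U v⟫_ℂ := by rw [hw']
  rw [h1, LinearIsometryEquiv.inner_map_map]
  exact hv w hw

omit [CompleteSpace H] in
lemma symm_orth {v : H} (hv : v ∈ (Fix U)ᗮ) : U.symm v ∈ (Fix U)ᗮ := by
  rw [Submodule.mem_orthogonal] at hv ⊢
  intro w hw
  have hw' : U w = w := hw
  rw [← U.inner_map_map, U.apply_symm_apply, hw']
  exact hv w hw

/-- The restriction of `U` to the orthogonal complement of its fixed vectors. -/
noncomputable def restr : (Fix U)ᗮ ≃ₗᵢ[ℂ] (Fix U)ᗮ where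
  toFun v := ⟨U v, map_orth U v.2⟩
  map_add' v w := Subtype.ext (by simp)
  map_smul' c v := Subtype.ext (by simp)
  invFun v := ⟨U.symm v, symm_orth U v.2⟩
  left_inv v := Subtype.ext (by simp)
  right_inv v := Subtype.ext (by simp)
  norm_map' v := U.norm_map v

omit [CompleteSpace H] in
lemma restr_coe (v : (Fix U)ᗮ) : ((restr U v : (Fix U)ᗮ) : H) = U v := rfl

omit [CompleteSpace H] in
lemma restr_zpow (n : ℤ) (v : (Fix U)ᗮ) : (((restr U ^ n) v : (Fix U)ᗮ) : H) = (U ^ n) v := by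
  induction n using Int.induction_on with
  | zero => simp
  | succ i ih =>
    rw [add_comm, zpow_add, zpow_one, zpow_add, zpow_one]
    show U _ = U _
    exact congrArg U ih
  | pred i ih =>
    apply U.injective
    have h1 : U (((restr U ^ (-(i : ℤ) - 1)) v : (Fix U)ᗮ) : H) =
        (((restr U * restr U ^ (-(i : ℤ) - 1)) v : (Fix U)ᗮ) : H) := rfl
    have h2 : U ((U ^ (-(i : ℤ) - 1)) (v : H)) = (U * U ^ (-(i : ℤ) - 1)) (v : H) := rfl
    rw [h1, h2, ← zpow_one_add, ← zpow_one_add]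
    convert ih using 3 <;> ring_nf

end ergodic

lemma not_kazhdan_iff (f : ℤ → Bool) :
    ¬ IsKazhdan.{u} (code f) ↔ f ∈ ⋂ k : ℕ, ⋃ N : ℕ, FF k N := by
  rw [Set.mem_iInter]
  constructor
  · intro h k
    unfold IsKazhdan at h
    push Not at h
    obtain ⟨H, i1, i2, i3, U, ⟨x, hx, δ, hδ, hQ⟩, hU⟩ := h (1 / ((k : ℝ) + 1)) (by positivity)
    obtain ⟨N, hN⟩ := exists_avg U (fun y hy => by
      by_contra h0
      exact hU y h0 hy) x
    rw [Set.mem_iUnion]
    refine ⟨N, fun n => ⟪x, (U ^ n) x⟫_ℂ, mem_PD U x hx, ?_, ?_⟩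
    · rw [← norm_avg_sq]
      exact_mod_cast hN
    · intro n hn
      rw [← norm_sub_sq' U x hx]
      exact pow_le_pow_left₀ (norm_nonneg _) ((hQ n hn).trans hδ.le) 2
  · rintro h ⟨ε, hε, hK⟩
    obtain ⟨k, hk⟩ := exists_nat_one_div_lt (half_pos hε)
    obtain ⟨N, φ, hφ, hN, hQ⟩ := Set.mem_iUnion.1 (h k)
    obtain ⟨H, i1, i2, i3, U, x, hx, hxφ⟩ := gns.{u} φ hφ
    have hcl : IsClosed (Fix U : Set H) := isClosed_eq U.continuous continuous_id
    have : CompleteSpace (Fix U) := hcl.completeSpace_coe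
    set p : H := (Fix U).starProjection x with hp
    have hpF : p ∈ Fix U := (Fix U).starProjection_apply_mem x
    have hUp : U p = p := hpF
    have hy : x - p ∈ (Fix U)ᗮ := (Fix U).sub_starProjection_mem_orthogonal x
    set y : H := x - p with hydef
    have hpx : ⟪p, x⟫_ℂ = ((‖p‖ ^ 2 : ℝ) : ℂ) := by
      have h1 : ⟪p, y⟫_ℂ = 0 := Submodule.mem_orthogonal _ _ |>.1 hy p hpF
      have h2 : x = p + y := by rw [hydef]; abel
      rw [h2, inner_add_right, h1, add_zero, inner_self_eq_norm_sq_to_K]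
      norm_cast
    set S : H := ∑ a ∈ Finset.range (N + 1), (U ^ (a : ℤ)) x with hS
    have hSn : ‖S‖ ^ 2 ≤ ((N : ℝ) + 1) ^ 2 / 2 := by
      rw [hS, norm_avg_sq]
      simpa only [hxφ] using hN
    have hpS : ⟪p, S⟫_ℂ = ((((N : ℝ) + 1) * ‖p‖ ^ 2 : ℝ) : ℂ) := by
      rw [hS, inner_sum]
      have : ∀ a ∈ Finset.range (N + 1), ⟪p, (U ^ (a : ℤ)) x⟫_ℂ = ((‖p‖ ^ 2 : ℝ) : ℂ) := by
        intro a _
        have h3 : ⟪p, (U ^ (a : ℤ)) x⟫_ℂ = ⟪(U ^ (a : ℤ)) p, (U ^ (a : ℤ)) x⟫_ℂ := by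
          rw [zpow_fix U hUp]
        rw [h3, LinearIsometryEquiv.inner_map_map, hpx]
      rw [Finset.sum_congr rfl this]
      simp
    have hp2 : ‖p‖ ^ 2 ≤ 1 / 2 := by
      have h4 : ((N : ℝ) + 1) * ‖p‖ ^ 2 ≤ ‖p‖ * ‖S‖ := by
        have := norm_inner_le_norm (𝕜 := ℂ) p S
        rw [hpS, Complex.norm_real, Real.norm_of_nonneg (by positivity)] at this
        exact this
      by_contra hcon
      push Not at hcon
      have hN0 : (0 : ℝ) < (N : ℝ) + 1 := by positivity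
      have hp0 : 0 < ‖p‖ := by
        by_contra h0
        have : ‖p‖ = 0 := le_antisymm (not_lt.1 h0) (norm_nonneg _)
        rw [this] at hcon
        norm_num at hcon
      have h5 : ((N : ℝ) + 1) * ‖p‖ ≤ ‖S‖ := by
        have : ‖p‖ * (((N : ℝ) + 1) * ‖p‖) ≤ ‖p‖ * ‖S‖ := by nlinarith
        exact le_of_mul_le_mul_left this hp0
      have h6 : (((N : ℝ) + 1) * ‖p‖) ^ 2 ≤ ‖S‖ ^ 2 :=
        pow_le_pow_left₀ (by positivity) h5 2
      rw [mul_pow] at h6
      have h7 : ((N : ℝ) + 1) ^ 2 * ‖p‖ ^ 2 ≤ ((N : ℝ) + 1) ^ 2 * (1 / 2) := by linarith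
      have := le_of_mul_le_mul_left h7 (by positivity)
      linarith
    have hy2 : 1 / 2 ≤ ‖y‖ := by
      have h1 : ⟪p, y⟫_ℂ = 0 := Submodule.mem_orthogonal _ _ |>.1 hy p hpF
      have h2 : ‖p + y‖ * ‖p + y‖ = ‖p‖ * ‖p‖ + ‖y‖ * ‖y‖ :=
        norm_add_sq_eq_norm_sq_add_norm_sq_of_inner_eq_zero p y h1
      have h3 : p + y = x := by rw [hydef]; abel
      rw [h3, hx] at h2
      nlinarith [norm_nonneg y]
    have hyn : ∀ n ∈ code f, ‖(U ^ n) y - y‖ ≤ 1 / ((k : ℝ) + 1) := by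
      intro n hn
      have e1 : (U ^ n) y - y = (U ^ n) x - x := by
        rw [hydef, map_sub, zpow_fix U hUp]
        abel
      rw [e1]
      refine le_of_sq_le_sq ?_ (by positivity)
      rw [norm_sub_sq' U x hx, hxφ]
      exact hQ n hn
    have hy0 : 0 < ‖y‖ := by linarith
    let y' : (Fix U)ᗮ := ⟨y, hy⟩
    obtain ⟨w, hw0, hw⟩ := hK (Fix U)ᗮ (restr U) ⟨((‖y‖ : ℂ)⁻¹) • y', by
        rw [norm_smul, norm_inv, Complex.norm_real, norm_norm]
        exact inv_mul_cancel₀ hy0.ne', 2 * (1 / ((k : ℝ) + 1)), by linarith, by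
        intro n hn
        rw [map_smul, ← smul_sub, norm_smul, norm_inv, Complex.norm_real, norm_norm]
        have e2 : ‖(restr U ^ n) y' - y'‖ = ‖(U ^ n) y - y‖ := by
          show ‖(((restr U ^ n) y' - y' : (Fix U)ᗮ) : H)‖ = _
          rw [Submodule.coe_sub, restr_zpow]
        rw [e2]
        refine mul_le_mul ?_ (hyn n hn) (norm_nonneg _) (by norm_num)
        rw [inv_le_comm₀ hy0 (by norm_num)]
        linarith⟩
    have h1 : (w : H) ∈ Fix U := congrArg Subtype.val hw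
    have h2 : ⟪(w : H), (w : H)⟫_ℂ = 0 := (Submodule.mem_orthogonal _ _).1 w.2 _ h1
    exact hw0 (Subtype.ext (inner_self_eq_zero.1 h2))

lemma isOpen_generating : IsOpen {f : ℤ → Bool | AddSubgroup.closure (code f) = ⊤} := by
  rw [isOpen_iff_mem_nhds]
  intro f hf
  have h0 : AddSubgroup.closure (code f) = ⊤ := hf
  have h1 : (1 : ℤ) ∈ AddSubgroup.closure (code f) := by
    rw [h0]
    trivial
  have key : ∀ g ∈ AddSubgroup.closure (code f), ∀ᶠ f' in 𝓝 f, g ∈ AddSubgroup.closure (code f') := by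
    intro g hg
    induction hg using AddSubgroup.closure_induction with
    | mem g hg =>
      have hc : Continuous fun f' : ℤ → Bool => f' g := continuous_apply g
      have : ∀ᶠ f' in 𝓝 f, f' g = true :=
        ((isOpen_discrete {true}).preimage hc).mem_nhds hg
      filter_upwards [this] with f' hf'
      exact AddSubgroup.subset_closure hf'
    | zero => exact Eventually.of_forall fun f' => zero_mem _
    | add x y _ _ hx hy =>
      filter_upwards [hx, hy] with f' h1 h2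
      exact add_mem h1 h2
    | neg x _ hx =>
      filter_upwards [hx] with f' h1
      exact neg_mem h1
  filter_upwards [key 1 h1] with f' hf'
  show AddSubgroup.closure (code f') = ⊤
  rw [eq_top_iff]
  intro n _
  have := AddSubgroup.zsmul_mem _ hf' n
  simpa using this

/-- The family `𝒦` of Kazhdan subsets of `ℤ` and the family `¬𝒦₀` of generating non-Kazhdan subsets
of `ℤ` are Borel subsets of the Cantor space `ℤ → Bool`. In fact the family of non-Kazhdan sets is a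
countable intersection of countable unions of closed sets. -/
theorem result :
    @MeasurableSet (ℤ → Bool) (borel (ℤ → Bool)) {f : ℤ → Bool | IsKazhdan.{u} (code f)} ∧
    @MeasurableSet (ℤ → Bool) (borel (ℤ → Bool)) {f : ℤ → Bool | AddSubgroup.closure (code f) = ⊤ ∧
      ¬ IsKazhdan.{u} (code f)} ∧
    ∃ F : ℕ → ℕ → Set (ℤ → Bool), (∀ k N, IsClosed (F k N)) ∧
      {f : ℤ → Bool | ¬ IsKazhdan.{u} (code f)} = ⋂ k, ⋃ N, F k N := by
  have key : {f : ℤ → Bool | ¬ IsKazhdan.{u} (code f)} = ⋂ k, ⋃ N, FF k N := by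
    ext f
    exact not_kazhdan_iff f
  have hm : @MeasurableSet (ℤ → Bool) (borel (ℤ → Bool)) {f : ℤ → Bool | ¬ IsKazhdan.{u} (code f)} := by
    rw [key]
    let _ : MeasurableSpace (ℤ → Bool) := borel (ℤ → Bool)
    have : BorelSpace (ℤ → Bool) := ⟨rfl⟩
    exact MeasurableSet.iInter fun k => MeasurableSet.iUnion fun N => (isClosed_FF k N).measurableSet
  refine ⟨?_, ?_, FF, isClosed_FF, key⟩
  · have := hm.compl
    convert this using 1
    ext f
    simp
  · let _ : MeasurableSpace (ℤ → Bool) := borel (ℤ → Bool)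
    have : BorelSpace (ℤ → Bool) := ⟨rfl⟩
    exact isOpen_generating.measurableSet.inter hm

end Pool.Agent.Results.MP_6f1842_lc.BorelKazhdan
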